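import Mathlib

set_option autoImplicit false

/-!
# The bound `td(G) ≤ (n - 2 √n) / 4` fails for arbitrarily large connected graphs

For odd `m = 2k+1 ≥ 3` take `K_m`, replace every edge by two parallel edges, replace the three edges
of one triangle by three parallel edges each, and subdivide every edge once. The resulting
connected graph has `n = m^2 + 3` vertices, minimum degree `2` and `td ≥ k^2 + 1 >
(n - 2 √n)/4 + 1/2`.
-/

namespace Pool.Agent.Results.MP_df5a7a_co.BoundFails

/-- `S` is a total dominating set of `G`: every vertex of `G` (also those of `S`) has a neighbour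
in `S`. -/
def IsTotalDominating {V : Type*} (G : SimpleGraph V) (S : Set V) : Prop :=
  ∀ v, ∃ w ∈ S, G.Adj v w

/-- `G` has two disjoint total dominating sets. -/
def HasTwoDisjointTD {V : Type*} (G : SimpleGraph V) : Prop :=
  ∃ S T : Set V, Disjoint S T ∧ IsTotalDominating G S ∧ IsTotalDominating G T

/-- The numbers `t` such that adding some `t` edges of the complement of `G` to `G` gives a graph
with two disjoint total dominating sets. -/
def augmentSizes {V : Type*} (G : SimpleGraph V) : Set ℕ :=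
  {t | ∃ F : Finset (Sym2 V), (F : Set (Sym2 V)) ⊆ Gᶜ.edgeSet ∧ F.card = t ∧
    HasTwoDisjointTD (G ⊔ SimpleGraph.fromEdgeSet (F : Set (Sym2 V)))}

/-- `td(G)`: the least number of edges of the complement of `G` whose addition to `G` gives a graph
with two disjoint total dominating sets. -/
noncomputable def td {V : Type*} (G : SimpleGraph V) : ℕ := sInf (augmentSizes G)

/-! ### The graphs -/

/-- vertices: `inl (i,i)` is the branch vertex `i`; `inl (i,j)` with `i ≠ j` is one of the two
subdivision vertices between `i` and `j`; `inr t` is the third subdivision vertex between the branch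
vertices `t` and `t+1 (mod 3)`. -/
abbrev VV (m : ℕ) := (Fin m × Fin m) ⊕ Fin 3

/-- `c` is the code of one of the two branch vertices next to the subdivision vertex -/
def nb (m : ℕ) (v : VV m) (c : ℕ) : Prop :=
  match v with
  | .inl p => p.1 ≠ p.2 ∧ (c = p.1.val ∨ c = p.2.val)
  | .inr t => c = t.val ∨ c = (t.val + 1) % 3

/-- `v` is the branch vertex `c` -/
def br (m : ℕ) (v : VV m) (c : ℕ) : Prop :=
  match v with
  | .inl p => p.1 = p.2 ∧ p.1.val = c
  | .inr _ => False

/-- the graph -/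
def GG (m : ℕ) : SimpleGraph (VV m) where
  Adj u v := (∃ c, br m u c ∧ nb m v c) ∨ (∃ c, br m v c ∧ nb m u c)
  symm := ⟨fun _ _ h => h.symm⟩
  loopless := ⟨by
    rintro (p | t) (⟨c, h1, h2⟩ | ⟨c, h1, h2⟩)
    · exact h2.1 h1.1
    · exact h2.1 h1.1
    · exact h1
    · exact h1⟩

/-- branch vertex -/
def core {m : ℕ} (i : Fin m) : VV m := .inl (i, i)

lemma adj_core_left {m : ℕ} {i j : Fin m} (h : i ≠ j) : (GG m).Adj (.inl (i, j)) (core i) :=
  Or.inr ⟨i.val, ⟨rfl, rfl⟩, h, Or.inl rfl⟩

lemma adj_core_right {m : ℕ} {i j : Fin m} (h : i ≠ j) : (GG m).Adj (.inl (i, j)) (core j) :=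
  Or.inr ⟨j.val, ⟨rfl, rfl⟩, h, Or.inr rfl⟩

lemma adj_extra_left {m : ℕ} (t : Fin 3) (h : t.val < m) : (GG m).Adj (.inr t) (core ⟨t.val, h⟩) :=
  Or.inr ⟨t.val, ⟨rfl, rfl⟩, Or.inl rfl⟩

lemma adj_extra_right {m : ℕ} (t : Fin 3) (h : (t.val + 1) % 3 < m) :
    (GG m).Adj (.inr t) (core ⟨(t.val + 1) % 3, h⟩) :=
  Or.inr ⟨(t.val + 1) % 3, ⟨rfl, rfl⟩, Or.inr rfl⟩

lemma nbr_inl {m : ℕ} {i j : Fin m} (h : i ≠ j) {w : VV m} (hw : (GG m).Adj (.inl (i, j)) w) :
    w = core i ∨ w = core j := by
  rcases hw with ⟨c, h1, _⟩ | ⟨c, h1, _, h3⟩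
  · exact absurd h1.1 h
  · rcases w with ⟨a, b⟩ | t
    · obtain ⟨h4, h5⟩ := h1
      simp only at h4 h5 h3
      subst h4
      rcases h3 with h3 | h3
      · left
        have : a = i := Fin.ext (h5.trans h3)
        rw [this]; rfl
      · right
        have : a = j := Fin.ext (h5.trans h3)
        rw [this]; rfl
    · exact h1.elim

lemma nbr_inr {m : ℕ} {t : Fin 3} (h1 : t.val < m) (h2 : (t.val + 1) % 3 < m) {w : VV m}
    (hw : (GG m).Adj (.inr t) w) :
    w = core ⟨t.val, h1⟩ ∨ w = core ⟨(t.val + 1) % 3, h2⟩ := by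
  rcases hw with ⟨c, h, _⟩ | ⟨c, h, h3⟩
  · exact h.elim
  · rcases w with ⟨a, b⟩ | s
    · obtain ⟨h4, h5⟩ := h
      simp only at h4 h5
      subst h4
      rcases h3 with h3 | h3
      · left
        have : a = ⟨t.val, h1⟩ := Fin.ext (h5.trans h3)
        rw [this]; rfl
      · right
        have : a = ⟨(t.val + 1) % 3, h2⟩ := Fin.ext (h5.trans h3)
        rw [this]; rfl
    · exact h.elim

lemma reach_cores {m : ℕ} (i j : Fin m) : (GG m).Reachable (core i) (core j) := by
  by_cases h : i = j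
  · rw [h]
  · exact (adj_core_left h).symm.reachable.trans (adj_core_right h).reachable

lemma conn {m : ℕ} (hm : 3 ≤ m) : (GG m).Connected := by
  have h0 : ∀ v : VV m, ∃ i : Fin m, (GG m).Reachable v (core i) := by
    rintro (⟨i, j⟩ | t)
    · by_cases h : i = j
      · subst h
        exact ⟨i, SimpleGraph.Reachable.refl _⟩
      · exact ⟨i, (adj_core_left h).reachable⟩
    · exact ⟨⟨t.val, by omega⟩, (adj_extra_left t (by omega)).reachable⟩
  have hp : (GG m).Preconnected := by
    intro u v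
    obtain ⟨i, hi⟩ := h0 u
    obtain ⟨j, hj⟩ := h0 v
    exact (hi.trans (reach_cores i j)).trans hj.symm
  have : Nonempty (VV m) := ⟨.inr 0⟩
  exact ⟨hp⟩

lemma two_nbrs {V : Type*} [Finite V] {G : SimpleGraph V} {v a b : V} (hab : a ≠ b)
    (ha : G.Adj v a) (hb : G.Adj v b) : 2 ≤ (G.neighborSet v).ncard := by
  have h1 : ({a, b} : Set V) ⊆ G.neighborSet v := by
    intro x hx
    rcases hx with rfl | hx
    · exact ha
    · rw [Set.mem_singleton_iff] at hx
      subst hx
      exact hb
  have h2 := Set.ncard_le_ncard h1 (Set.toFinite _)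
  rwa [Set.ncard_pair hab] at h2

lemma core_inj {m : ℕ} {i j : Fin m} (h : (core i : VV m) = core j) : i = j := by
  have := Sum.inl.inj h
  exact congrArg Prod.fst this

lemma min_deg {m : ℕ} (hm : 3 ≤ m) (v : VV m) : 2 ≤ ((GG m).neighborSet v).ncard := by
  rcases v with ⟨i, j⟩ | t
  · by_cases h : i = j
    · subst h
      -- branch vertex: two other branch vertices
      obtain ⟨j, hj⟩ : ∃ j : Fin m, i ≠ j := by
        by_cases h0 : i.val = 0
        · exact ⟨⟨1, by omega⟩, fun h => by rw [h] at h0; simp at h0⟩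
        · exact ⟨⟨0, by omega⟩, fun h => by rw [h] at h0; simp at h0⟩
      refine two_nbrs (a := .inl (i, j)) (b := .inl (j, i)) ?_ (adj_core_left hj).symm
        (adj_core_right hj.symm).symm
      intro h
      have := Sum.inl.inj h
      exact hj (congrArg Prod.fst this)
    · exact two_nbrs (fun h' => h (core_inj h')) (adj_core_left h) (adj_core_right h)
  · have h1 : t.val < m := by omega
    have h2 : (t.val + 1) % 3 < m := by omega
    refine two_nbrs (fun h' => ?_) (adj_extra_left t h1) (adj_extra_right t h2)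
    have := core_inj h'
    rw [Fin.mk.injEq] at this
    omega

lemma card_VV (m : ℕ) : Fintype.card (VV m) = m ^ 2 + 3 := by
  simp [Fintype.card_sum, Fintype.card_prod, sq]

/-! ### Lower bound -/

/-- A vertex whose two neighbours are on the same side is an end of an added edge. -/
lemma bad_end {V : Type*} {G : SimpleGraph V} {F : Finset (Sym2 V)} {S T : Set V}
    (hST : Disjoint S T)
    (hS : IsTotalDominating (G ⊔ SimpleGraph.fromEdgeSet (F : Set (Sym2 V))) S)
    (hT : IsTotalDominating (G ⊔ SimpleGraph.fromEdgeSet (F : Set (Sym2 V))) T)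
    {x a b : V} (hx : ∀ w, G.Adj x w → w = a ∨ w = b) (hab : a ∈ S ↔ b ∈ S) :
    ∃ e ∈ F, x ∈ e := by
  have key : ∀ w, (G ⊔ SimpleGraph.fromEdgeSet (F : Set (Sym2 V))).Adj x w → w ≠ a → w ≠ b →
      ∃ e ∈ F, x ∈ e := by
    intro w hw ha hb
    rw [SimpleGraph.sup_adj] at hw
    rcases hw with hw | hw
    · exact absurd (hx w hw) (by rintro (h | h); exacts [ha h, hb h])
    · rw [SimpleGraph.fromEdgeSet_adj] at hw
      exact ⟨s(x, w), by exact_mod_cast hw.1, Sym2.mem_mk_left x w⟩
  by_cases haS : a ∈ S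
  · obtain ⟨w, hwT, hw⟩ := hT x
    refine key w hw ?_ ?_
    · rintro rfl
      exact Set.disjoint_left.1 hST haS hwT
    · rintro rfl
      exact Set.disjoint_left.1 hST (hab.1 haS) hwT
  · obtain ⟨w, hwS, hw⟩ := hS x
    refine key w hw ?_ ?_
    · rintro rfl
      exact haS hwS
    · rintro rfl
      exact haS (hab.2 hwS)

/-- The number of ends of a set of edges is at most twice its size. -/
lemma ends_card {V : Type*} [Fintype V] [DecidableEq V] (F : Finset (Sym2 V)) (B : Finset V)
    (h : ∀ x ∈ B, ∃ e ∈ F, x ∈ e) : B.card ≤ 2 * F.card := by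
  classical
  have hsub : B ⊆ F.biUnion (fun e => Finset.univ.filter (fun x => x ∈ e)) := by
    intro x hx
    obtain ⟨e, he, hxe⟩ := h x hx
    rw [Finset.mem_biUnion]
    exact ⟨e, he, Finset.mem_filter.2 ⟨Finset.mem_univ _, hxe⟩⟩
  refine (Finset.card_le_card hsub).trans ?_
  refine (Finset.card_biUnion_le_card_mul F _ 2 ?_).trans (le_of_eq (mul_comm _ _))
  intro e _
  induction e using Sym2.ind with
  | _ a b =>
    have : (Finset.univ.filter (fun x => x ∈ s(a, b))) ⊆ ({a, b} : Finset V) := by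
      intro x hx
      rw [Finset.mem_filter, Sym2.mem_iff] at hx
      rw [Finset.mem_insert, Finset.mem_singleton]
      exact hx.2
    exact (Finset.card_le_card this).trans Finset.card_le_two

/-- Number of ordered pairs of distinct indices on the same side. -/
lemma count_pairs (k : ℕ) (c : Fin (2 * k + 1) → Prop) [DecidablePred c] :
    2 * k ^ 2 ≤ ((Finset.univ : Finset (Fin (2 * k + 1) × Fin (2 * k + 1))).filter
      (fun p => p.1 ≠ p.2 ∧ (c p.1 ↔ c p.2))).card := by
  classical
  set P := (Finset.univ : Finset (Fin (2 * k + 1))).filter c with hP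
  set Q := (Finset.univ : Finset (Fin (2 * k + 1))).filter (fun i => ¬ c i) with hQ
  have hsum : P.card + Q.card = 2 * k + 1 := by
    have := Finset.card_filter_add_card_filter_not (s := (Finset.univ : Finset (Fin (2 * k + 1)))) c
    rw [Finset.card_univ, Fintype.card_fin] at this
    exact this
  have hsub : P.offDiag ∪ Q.offDiag ⊆ ((Finset.univ : Finset (Fin (2 * k + 1) × Fin (2 * k + 1))).filter
      (fun p => p.1 ≠ p.2 ∧ (c p.1 ↔ c p.2))) := by
    intro p hp
    rw [Finset.mem_union, Finset.mem_offDiag, Finset.mem_offDiag] at hp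
    rw [Finset.mem_filter]
    refine ⟨Finset.mem_univ _, ?_⟩
    rcases hp with ⟨h1, h2, h3⟩ | ⟨h1, h2, h3⟩
    · rw [hP, Finset.mem_filter] at h1 h2
      exact ⟨h3, iff_of_true h1.2 h2.2⟩
    · rw [hQ, Finset.mem_filter] at h1 h2
      exact ⟨h3, iff_of_false h1.2 h2.2⟩
  have hdis : Disjoint P.offDiag Q.offDiag := by
    rw [Finset.disjoint_left]
    intro p h1 h2
    rw [Finset.mem_offDiag] at h1 h2
    have h3 := h1.1
    have h4 := h2.1
    rw [hP, Finset.mem_filter] at h3
    rw [hQ, Finset.mem_filter] at h4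
    exact h4.2 h3.2
  refine le_trans ?_ (Finset.card_le_card hsub)
  rw [Finset.card_union_of_disjoint hdis, Finset.offDiag_card, Finset.offDiag_card]
  generalize P.card = p at *
  generalize Q.card = q at *
  obtain rfl : q = 2 * k + 1 - p := by omega
  have hp : p ≤ 2 * k + 1 := by omega
  obtain ⟨q, hq⟩ : ∃ q, 2 * k + 1 - p = q := ⟨_, rfl⟩
  rw [hq]
  have hpq : p + q = 2 * k + 1 := by omega
  have h1 : p ≤ p * p := Nat.le_mul_self p
  have h2 : q ≤ q * q := Nat.le_mul_self q
  zify [h1, h2]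
  have hk : (p : ℤ) + q = 2 * k + 1 := by exact_mod_cast hpq
  have hne : (p : ℤ) - q ≠ 0 := by omega
  have h3 : 1 ≤ ((p : ℤ) - q) ^ 2 := by
    have : 0 < ((p : ℤ) - q) ^ 2 := by positivity
    omega
  nlinarith

lemma lower {k : ℕ} (hk : 1 ≤ k) (F : Finset (Sym2 (VV (2 * k + 1))))
    (hF : HasTwoDisjointTD (GG (2 * k + 1) ⊔
      SimpleGraph.fromEdgeSet (F : Set (Sym2 (VV (2 * k + 1)))))) : k ^ 2 + 1 ≤ F.card := by
  classical
  obtain ⟨S, T, hST, hS, hT⟩ := hF
  set c : Fin (2 * k + 1) → Prop := fun i => core i ∈ S with hc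
  set B1 := ((Finset.univ : Finset (Fin (2 * k + 1) × Fin (2 * k + 1))).filter
      (fun p => p.1 ≠ p.2 ∧ (c p.1 ↔ c p.2))) with hB1
  have hcount := count_pairs k c
  rw [← hB1] at hcount
  -- an extra vertex which is bad
  have hex : ∃ t : Fin 3, (c ⟨t.val, by omega⟩ ↔ c ⟨(t.val + 1) % 3, by omega⟩) := by
    by_contra hcon
    push Not at hcon
    have h0 := hcon 0
    have h1 := hcon 1
    have h2 := hcon 2
    simp only [Fin.val_zero, Fin.val_one, Fin.val_two, Nat.reduceAdd, Nat.reduceMod] at h0 h1 h2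
    tauto
  obtain ⟨t, ht⟩ := hex
  set B : Finset (VV (2 * k + 1)) := (B1.map Function.Embedding.inl) ∪ {.inr t} with hB
  have hBcard : B.card = B1.card + 1 := by
    rw [hB, Finset.card_union_of_disjoint, Finset.card_map, Finset.card_singleton]
    rw [Finset.disjoint_singleton_right, Finset.mem_map]
    rintro ⟨p, _, hp⟩
    exact Sum.inl_ne_inr hp
  have hends : ∀ x ∈ B, ∃ e ∈ F, x ∈ e := by
    intro x hx
    rw [hB, Finset.mem_union, Finset.mem_map, Finset.mem_singleton] at hx
    rcases hx with ⟨⟨i, j⟩, hp, rfl⟩ | rfl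
    · rw [hB1, Finset.mem_filter] at hp
      exact bad_end hST hS hT (a := core i) (b := core j)
        (fun w hw => nbr_inl hp.2.1 hw) hp.2.2
    · exact bad_end hST hS hT (a := core ⟨t.val, by omega⟩) (b := core ⟨(t.val + 1) % 3, by omega⟩)
        (fun w hw => nbr_inr _ _ hw) ht
  have := ends_card F B hends
  rw [hBcard] at this
  omega

/-- The complete graph on at least four vertices has two disjoint total dominating sets, so the set
of admissible sizes is not empty. -/
lemma augmentSizes_nonempty {V : Type*} [Fintype V] (hV : 4 ≤ Fintype.card V)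
    (G : SimpleGraph V) : (augmentSizes G).Nonempty := by
  classical
  obtain ⟨A, _, hA⟩ := Finset.exists_subset_card_eq (s := (Finset.univ : Finset V)) (n := 4)
    (by rw [Finset.card_univ]; exact hV)
  obtain ⟨a, b, c, d, hab, hac, had, hbc, hbd, hcd, hAe⟩ := Finset.card_eq_four.1 hA
  refine ⟨Gᶜ.edgeFinset.card, Gᶜ.edgeFinset, ?_, rfl, ?_⟩
  · rw [SimpleGraph.coe_edgeFinset]
  · have hadj : ∀ u v : V, u ≠ v →
        (G ⊔ SimpleGraph.fromEdgeSet ((Gᶜ.edgeFinset : Finset (Sym2 V)) : Set (Sym2 V))).Adj u v := by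
      intro u v huv
      rw [SimpleGraph.coe_edgeFinset, SimpleGraph.fromEdgeSet_edgeSet, SimpleGraph.sup_adj,
        SimpleGraph.compl_adj]
      by_cases h : G.Adj u v
      · exact Or.inl h
      · exact Or.inr ⟨huv, h⟩
    have htd : ∀ x y : V, x ≠ y → IsTotalDominating
        (G ⊔ SimpleGraph.fromEdgeSet ((Gᶜ.edgeFinset : Finset (Sym2 V)) : Set (Sym2 V)))
        ({x, y} : Set V) := by
      intro x y hxy v
      by_cases h : v = x
      · subst h
        exact ⟨y, by simp, hadj _ _ hxy⟩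
      · exact ⟨x, by simp, hadj _ _ h⟩
    refine ⟨{a, b}, {c, d}, ?_, htd a b hab, htd c d hcd⟩
    rw [Set.disjoint_left]
    rintro x (rfl | h1) (h2 | h2)
    · exact hac h2
    · exact had h2
    · rw [Set.mem_singleton_iff] at h1; subst h1; exact hbc h2
    · rw [Set.mem_singleton_iff] at h1; subst h1; exact hbd h2

/-- **The bound `td(G) ≤ (n - 2√n)/4` is false.** For every `N` there is a connected graph `G` with
`n ≥ N` vertices and minimum degree at least `2` such that `td(G) > (n - 2√n)/4 + 1/2`. -/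
theorem result : ∀ N : ℕ, ∃ (V : Type) (_ : Fintype V) (G : SimpleGraph V),
    N ≤ Fintype.card V ∧ 4 ≤ Fintype.card V ∧ G.Connected ∧
    (∀ v, 2 ≤ (G.neighborSet v).ncard) ∧ (augmentSizes G).Nonempty ∧
    (1 / 4 : ℝ) * ((Fintype.card V : ℝ) - 2 * Real.sqrt (Fintype.card V : ℝ)) + 1 / 2
      < (td G : ℝ) := by
  intro N
  set k := N + 1 with hk
  have hk1 : 1 ≤ k := by omega
  have hcard : Fintype.card (VV (2 * k + 1)) = (2 * k + 1) ^ 2 + 3 := card_VV _
  have h4 : 4 ≤ Fintype.card (VV (2 * k + 1)) := by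
    rw [hcard]
    have : 1 ≤ (2 * k + 1) ^ 2 := Nat.one_le_pow _ _ (by omega)
    omega
  refine ⟨VV (2 * k + 1), inferInstance, GG (2 * k + 1), ?_, h4, conn (by omega),
    min_deg (by omega), augmentSizes_nonempty h4 _, ?_⟩
  · rw [hcard]
    nlinarith
  · have hne := augmentSizes_nonempty h4 (GG (2 * k + 1))
    obtain ⟨F, _, hF2, hF3⟩ := Nat.sInf_mem hne
    have hlow := lower hk1 F hF3
    have htd : k ^ 2 + 1 ≤ td (GG (2 * k + 1)) := by
      unfold td
      rw [← hF2]
      exact hlow
    have htd' : ((k : ℝ) ^ 2 + 1) ≤ (td (GG (2 * k + 1)) : ℝ) := by exact_mod_cast htd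
    rw [hcard]
    push_cast
    have hs : (2 * (k : ℝ) + 1) < Real.sqrt ((2 * (k : ℝ) + 1) ^ 2 + 3) := by
      apply Real.lt_sqrt_of_sq_lt
      linarith
    nlinarith

end Pool.Agent.Results.MP_df5a7a_co.BoundFails
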